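import Pool.Agent.J4H32.MV.S3

/-!
# Project MV (helper32): `S_NB`, `S_RC` (helper68)
-/

set_option autoImplicit false

namespace Pool.Agent.J4H68.MV

open Finset

theorem count_crt {m n : ℕ} (hm : 0 < m) (hn : 0 < n) (hc : m.Coprime n) (A B : ℕ → Prop)
    [DecidablePred A] [DecidablePred B]
    (hA : ∀ b, A (b % m) ↔ A b) (hB : ∀ b, B (b % n) ↔ B b) :
    ((range (m * n)).filter (fun b => A b ∧ B b)).card =
      ((range m).filter A).card * ((range n).filter B).card := by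
  rw [← card_product]
  refine card_nbij' (fun b => (b % m, b % n)) (fun q => (Nat.chineseRemainder hc q.1 q.2 : ℕ))
    ?_ ?_ ?_ ?_
  · intro b hb
    simp only [mem_coe, mem_filter, mem_range, mem_product] at hb ⊢
    exact ⟨⟨Nat.mod_lt _ hm, (hA b).2 hb.2.1⟩, Nat.mod_lt _ hn, (hB b).2 hb.2.2⟩
  · rintro ⟨x, y⟩ hq
    simp only [mem_coe, mem_filter, mem_range, mem_product] at hq ⊢
    have h1 := (Nat.chineseRemainder hc x y).2.1
    have h2 := (Nat.chineseRemainder hc x y).2.2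
    have h3 := Nat.chineseRemainder_lt_mul hc x y hm.ne' hn.ne'
    set z : ℕ := (Nat.chineseRemainder hc x y : ℕ) with hz
    have e1 : z % m = x := by
      have : z % m = x % m := h1
      rw [this, Nat.mod_eq_of_lt hq.1.1]
    have e2 : z % n = y := by
      have : z % n = y % n := h2
      rw [this, Nat.mod_eq_of_lt hq.2.1]
    refine ⟨h3, ?_, ?_⟩
    · rw [← hA, e1]
      exact hq.1.2
    · rw [← hB, e2]
      exact hq.2.2
  · intro b hb
    simp only [mem_coe, mem_filter, mem_range] at hb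
    have h1 := (Nat.chineseRemainder hc (b % m) (b % n)).2.1
    have h2 := (Nat.chineseRemainder hc (b % m) (b % n)).2.2
    have h3 := Nat.chineseRemainder_lt_mul hc (b % m) (b % n) hm.ne' hn.ne'
    have h4 : (Nat.chineseRemainder hc (b % m) (b % n) : ℕ) ≡ b [MOD m * n] := by
      rw [← Nat.modEq_and_modEq_iff_modEq_mul hc]
      exact ⟨h1.trans (Nat.mod_modEq b m), h2.trans (Nat.mod_modEq b n)⟩
    have h5 : (Nat.chineseRemainder hc (b % m) (b % n) : ℕ) % (m * n) = b % (m * n) := h4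
    rwa [Nat.mod_eq_of_lt h3, Nat.mod_eq_of_lt hb.1] at h5
  · rintro ⟨x, y⟩ hq
    simp only [mem_coe, mem_filter, mem_range, mem_product] at hq
    have h1 : (Nat.chineseRemainder hc x y : ℕ) % m = x % m := (Nat.chineseRemainder hc x y).2.1
    have h2 : (Nat.chineseRemainder hc x y : ℕ) % n = y % n := (Nat.chineseRemainder hc x y).2.2
    rw [Prod.mk.injEq]
    exact ⟨by rw [h1, Nat.mod_eq_of_lt hq.1.1], by rw [h2, Nat.mod_eq_of_lt hq.2.1]⟩

/-- the number of classes which avoid the shifts -/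
def cp {K : ℕ} (a : Fin K → ℕ) (p : ℕ) : ℕ := ((range p).filter (fun b => ∀ j, ¬ p ∣ b + a j)).card

theorem count_prod {K : ℕ} (a : Fin K → ℕ) (S : Finset ℕ) (hS : ∀ p ∈ S, p.Prime) :
    ((range (∏ p ∈ S, p)).filter (fun b => ∀ p ∈ S, ∀ j, ¬ p ∣ b + a j)).card = ∏ p ∈ S, cp a p := by
  induction S using Finset.induction_on with
  | empty => simp
  | insert q S hq ih =>
    have hqp := hS q (mem_insert_self _ _)
    have hS' : ∀ p ∈ S, p.Prime := fun p hp => hS p (mem_insert_of_mem hp)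
    rw [prod_insert hq, prod_insert hq, ← ih hS']
    have hc : q.Coprime (∏ p ∈ S, p) := by
      refine Nat.Coprime.prod_right fun p hp => ?_
      rw [Nat.coprime_primes hqp (hS' p hp)]
      rintro rfl
      exact hq hp
    have hdiv : ∀ p m b c : ℕ, p ∣ m → (p ∣ b % m + c ↔ p ∣ b + c) := by
      intro p m b c hpm
      have h1 : b % m + c ≡ b + c [MOD p] := ((Nat.mod_modEq b m).of_dvd hpm).add_right c
      exact (h1.dvd_iff (dvd_refl p))
    rw [cp, ← count_crt hqp.pos (Finset.prod_pos fun p hp => (hS' p hp).pos) hc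
      (fun b => ∀ j, ¬ q ∣ b + a j) (fun b => ∀ p ∈ S, ∀ j, ¬ p ∣ b + a j)]
    · congr 1
      ext b
      simp only [mem_filter, mem_range, mem_insert, forall_eq_or_imp]
    · intro b
      refine forall_congr' fun j => ?_
      rw [hdiv q q b (a j) (dvd_refl q)]
    · intro b
      refine forall_congr' fun p => forall_congr' fun hp => forall_congr' fun j => ?_
      rw [hdiv p _ b (a j) (Finset.dvd_prod_of_mem _ hp)]

theorem cp_pos {K : ℕ} (a : Fin K → ℕ) {p : ℕ} (hp : p.Prime) (h : ∃ r : ℕ, ∀ j, ¬ p ∣ r + a j) :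
    1 ≤ cp a p := by
  obtain ⟨r, hr⟩ := h
  unfold cp
  rw [Nat.one_le_iff_ne_zero, ← Nat.pos_iff_ne_zero, card_pos]
  refine ⟨r % p, ?_⟩
  rw [mem_filter, mem_range]
  refine ⟨Nat.mod_lt _ hp.pos, fun j hj => hr j ?_⟩
  have h1 : r % p + a j ≡ r + a j [MOD p] := (Nat.mod_modEq r p).add_right _
  exact (h1.dvd_iff (dvd_refl p)).1 hj

theorem cp_ge {K : ℕ} (a : Fin K → ℕ) {p : ℕ} (hp : p.Prime) : p ≤ cp a p + K := by
  unfold cp
  have h1 := card_filter_add_card_filter_not (s := range p) (fun b => ∀ j, ¬ p ∣ b + a j)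
  rw [card_range] at h1
  have h2 : ((range p).filter (fun b => ¬ ∀ j, ¬ p ∣ b + a j)).card ≤ K := by
    have h3 : (range p).filter (fun b => ¬ ∀ j, ¬ p ∣ b + a j) ⊆
        (univ : Finset (Fin K)).image (fun j => (p - a j % p) % p) := by
      intro b hb
      rw [mem_filter, mem_range] at hb
      obtain ⟨hb, hj⟩ := hb
      push Not at hj
      obtain ⟨j, hj⟩ := hj
      rw [mem_image]
      refine ⟨j, mem_univ _, ?_⟩
      have h4 : p ∣ b + a j % p := by
        have h5 : b + a j % p ≡ b + a j [MOD p] := (Nat.mod_modEq (a j) p).add_left b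
        exact (h5.dvd_iff (dvd_refl p)).2 hj
      have h6 := Nat.mod_lt (a j) hp.pos
      obtain ⟨t, ht⟩ := h4
      have h7 : t = 0 ∨ t = 1 := by
        by_contra hc
        have : 2 ≤ t := by omega
        have : p * 2 ≤ p * t := Nat.mul_le_mul_left _ this
        omega
      rcases h7 with rfl | rfl
      · have h8 : b = 0 := by omega
        have h9 : a j % p = 0 := by omega
        rw [h8, h9]
        simp
      · have h8 : p - a j % p = b := by omega
        rw [h8, Nat.mod_eq_of_lt hb]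
    exact (card_le_card h3).trans (card_image_le.trans (by simp))
  omega

theorem local_bound {K : ℕ} (hK : 1 ≤ K) {p c : ℕ} (hp : 2 ≤ p) (hc : 1 ≤ c) (hcK : p ≤ c + K) :
    (p : ℝ) ≤ (c : ℝ) * (if p ≤ 2 * K then (2 * K : ℝ) else 1) * ((p : ℝ) / (p - 1)) ^ (2 * K) := by
  have hp' : (2 : ℝ) ≤ p := by exact_mod_cast hp
  have hc' : (1 : ℝ) ≤ c := by exact_mod_cast hc
  have hK' : (1 : ℝ) ≤ K := by exact_mod_cast hK
  have h1 : (1 : ℝ) ≤ (p : ℝ) / (p - 1) := by
    rw [le_div_iff₀ (by linarith)]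
    linarith
  have h2 : (1 : ℝ) ≤ ((p : ℝ) / (p - 1)) ^ (2 * K) := one_le_pow₀ h1
  split_ifs with h
  · have h3 : (p : ℝ) ≤ 2 * K := by exact_mod_cast h
    calc (p : ℝ) ≤ 2 * K := h3
      _ = 1 * (2 * K) * 1 := by ring
      _ ≤ c * (2 * K) * ((p : ℝ) / (p - 1)) ^ (2 * K) := by gcongr
  · have h3 : (2 * K : ℝ) ≤ p := by exact_mod_cast (not_le.1 h).le
    have h4 : (p : ℝ) - K ≤ c := by
      have : (p : ℝ) ≤ c + K := by exact_mod_cast hcK
      linarith
    have h5 : 1 + (2 * K : ℕ) * (1 / (p : ℝ)) ≤ (1 + 1 / (p : ℝ)) ^ (2 * K) :=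
      one_add_mul_le_pow (by have : (0 : ℝ) ≤ 1 / (p : ℝ) := by positivity
                             linarith) (2 * K)
    have h6 : 1 + 1 / (p : ℝ) ≤ (p : ℝ) / (p - 1) := by
      rw [le_div_iff₀ (by linarith)]
      field_simp
      nlinarith
    have h7 : 1 + 2 * K * (1 / (p : ℝ)) ≤ ((p : ℝ) / (p - 1)) ^ (2 * K) := by
      refine le_trans ?_ (pow_le_pow_left₀ (by positivity) h6 (2 * K))
      push_cast at h5
      exact h5
    rw [mul_one]
    have h8 : (p : ℝ) ≤ (p - K) * (1 + 2 * K * (1 / (p : ℝ))) := by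
      have hp0 : (p : ℝ) ≠ 0 := by linarith
      have : (p - K) * (1 + 2 * K * (1 / (p : ℝ))) = p + K * (p - 2 * K) / p := by
        field_simp
        ring
      rw [this]
      have : 0 ≤ (K : ℝ) * (p - 2 * K) / p := by
        apply div_nonneg (mul_nonneg (by linarith) (by linarith)) (by linarith)
      linarith
    calc (p : ℝ) ≤ (p - K) * (1 + 2 * K * (1 / (p : ℝ))) := h8
      _ ≤ c * (1 + 2 * K * (1 / (p : ℝ))) := by
          apply mul_le_mul_of_nonneg_right h4; positivity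
      _ ≤ c * ((p : ℝ) / (p - 1)) ^ (2 * K) := by gcongr

theorem telescoping (w : ℕ) (hw : 1 ≤ w) : ∏ n ∈ Icc 2 w, ((n : ℝ) / (n - 1)) = w := by
  induction w with
  | zero => omega
  | succ w ih =>
    rcases Nat.eq_zero_or_pos w with rfl | h
    · simp
    · rw [Finset.prod_Icc_succ_top (by omega), ih h]
      have : (w : ℝ) ≠ 0 := by positivity
      push_cast
      rw [add_sub_cancel_right]
      field_simp

theorem prod_bound {K : ℕ} (hK : 1 ≤ K) (w : ℕ) (hw : 1 ≤ w) (a : Fin K → ℕ)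
    (h : ∀ p : ℕ, p.Prime → ∃ r : ℕ, ∀ j, ¬ p ∣ r + a j) :
    ∏ p ∈ (range (w + 1)).filter Nat.Prime, (p : ℝ) ≤ ((2 * K : ℝ) ^ (2 * K) * (w : ℝ) ^ (2 * K)) *
      ∏ p ∈ (range (w + 1)).filter Nat.Prime, (cp a p : ℝ) := by
  set S := (range (w + 1)).filter Nat.Prime with hS
  have hprime : ∀ p ∈ S, p.Prime := fun p hp => (mem_filter.1 hp).2
  have hK' : (1 : ℝ) ≤ 2 * K := by
    have : (1 : ℝ) ≤ K := by exact_mod_cast hK
    linarith
  have h1 : ∏ p ∈ S, (p : ℝ) ≤ ∏ p ∈ S, ((cp a p : ℝ) * (if p ≤ 2 * K then (2 * K : ℝ) else 1) *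
      ((p : ℝ) / (p - 1)) ^ (2 * K)) :=
    prod_le_prod (fun p _ => by positivity) fun p hp => local_bound hK (hprime p hp).two_le
      (cp_pos a (hprime p hp) (h p (hprime p hp))) (cp_ge a (hprime p hp))
  have h2 : ∏ p ∈ S, (if p ≤ 2 * K then (2 * K : ℝ) else 1) ≤ (2 * K : ℝ) ^ (2 * K) := by
    rw [prod_ite, prod_const, prod_const_one, mul_one]
    refine pow_le_pow_right₀ hK' ?_
    have : S.filter (fun p => p ≤ 2 * K) ⊆ Icc 1 (2 * K) := by
      intro p hp
      rw [mem_filter] at hp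
      rw [mem_Icc]
      exact ⟨(hprime p hp.1).one_lt.le, hp.2⟩
    exact (card_le_card this).trans (by simp)
  have h3 : ∏ p ∈ S, ((p : ℝ) / (p - 1)) ^ (2 * K) ≤ (w : ℝ) ^ (2 * K) := by
    rw [prod_pow]
    have hpos : ∀ n ∈ Icc 2 w, (1 : ℝ) ≤ (n : ℝ) / (n - 1) := by
      intro n hn
      rw [mem_Icc] at hn
      have : (2 : ℝ) ≤ n := by exact_mod_cast hn.1
      rw [le_div_iff₀ (by linarith)]
      linarith
    have hsub : S ⊆ Icc 2 w := by
      intro p hp
      have := mem_filter.1 hp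
      rw [mem_range] at this
      rw [mem_Icc]
      exact ⟨this.2.two_le, by omega⟩
    refine pow_le_pow_left₀ (prod_nonneg fun p hp => (zero_le_one.trans (hpos p (hsub hp)))) ?_ _
    rw [← telescoping w hw]
    rw [← prod_sdiff hsub]
    have h7 : (1 : ℝ) ≤ ∏ n ∈ Icc 2 w \ S, ((n : ℝ) / (n - 1)) :=
      prod_induction _ (fun x => (1 : ℝ) ≤ x) (fun a b ha hb => one_le_mul_of_one_le_of_one_le ha hb)
        le_rfl fun n hn => hpos n (mem_sdiff.1 hn).1
    have h8 : (0 : ℝ) ≤ ∏ n ∈ S, ((n : ℝ) / (n - 1)) :=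
      prod_nonneg fun p hp => (zero_le_one.trans (hpos p (hsub hp)))
    exact le_mul_of_one_le_left h8 h7
  rw [prod_mul_distrib, prod_mul_distrib] at h1
  refine h1.trans ?_
  have h4 : (0 : ℝ) ≤ ∏ p ∈ S, (cp a p : ℝ) := prod_nonneg fun _ _ => by positivity
  have h5 : (0 : ℝ) ≤ ∏ p ∈ S, (if p ≤ 2 * K then (2 * K : ℝ) else 1) :=
    prod_nonneg fun _ _ => by split_ifs <;> positivity
  have h6 : (0 : ℝ) ≤ ∏ p ∈ S, ((p : ℝ) / (p - 1)) ^ (2 * K) := prod_nonneg fun p hp => by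
    have : (2 : ℝ) ≤ p := by exact_mod_cast (hprime p hp).two_le
    have : (0 : ℝ) ≤ (p : ℝ) / (p - 1) := div_nonneg (by linarith) (by linarith)
    positivity
  calc (∏ p ∈ S, (cp a p : ℝ)) * (∏ p ∈ S, (if p ≤ 2 * K then (2 * K : ℝ) else 1)) *
        ∏ p ∈ S, ((p : ℝ) / (p - 1)) ^ (2 * K)
      ≤ (∏ p ∈ S, (cp a p : ℝ)) * (2 * K : ℝ) ^ (2 * K) * (w : ℝ) ^ (2 * K) := by gcongr
    _ = _ := by ring

theorem coprime_primorial_iff (w n : ℕ) :
    n.Coprime (primorial w) ↔ ∀ p ∈ (range (w + 1)).filter Nat.Prime, ¬ p ∣ n := by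
  unfold primorial
  rw [Nat.coprime_prod_right_iff]
  refine forall_congr' fun p => forall_congr' fun hp => ?_
  have := (mem_filter.1 hp).2
  rw [Nat.coprime_comm, this.coprime_iff_not_dvd]

theorem t_NB0 (K w : ℕ) (a : Fin K → ℕ) (hK : 1 ≤ K) (hw : 1 ≤ w)
    (h : ∀ p : ℕ, p.Prime → ∃ r : ℕ, ∀ j, ¬ p ∣ r + a j) :
    (primorial w : ℝ) ≤ ((2 * K : ℝ) ^ (2 * K) * (w : ℝ) ^ (2 * K)) *
    (((range (primorial w)).filter (fun b => ∀ j, (b + a j).Coprime (primorial w))).card : ℝ) := by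
  have h1 := prod_bound hK w hw a h
  have h2 := count_prod a ((range (w + 1)).filter Nat.Prime) fun p hp => (mem_filter.1 hp).2
  have h3 : (range (primorial w)).filter (fun b => ∀ j, (b + a j).Coprime (primorial w)) =
      (range (∏ p ∈ (range (w + 1)).filter Nat.Prime, p)).filter
        (fun b => ∀ p ∈ (range (w + 1)).filter Nat.Prime, ∀ j, ¬ p ∣ b + a j) := by
    ext b
    simp only [mem_filter, coprime_primorial_iff]
    refine and_congr Iff.rfl ?_
    exact ⟨fun h p hp j => h j p hp, fun h j p hp => h p hp j⟩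
  rw [h3, h2]
  push_cast
  have h4 : (primorial w : ℝ) = ∏ p ∈ (range (w + 1)).filter Nat.Prime, (p : ℝ) := by
    unfold primorial
    push_cast
    rfl
  rw [h4]
  exact h1

theorem t_NB : Pool.Agent.J4H32.MV.S_NB := fun K w a hK hw h => t_NB0 K w a hK hw h

theorem t_RC : Pool.Agent.J4H32.MV.S_RC := by
  intro K w a hK hw h B hB
  by_contra hno
  push Not at hno
  have h1 := t_NB0 K w a hK hw h
  have hPpos : 0 < primorial w := primorial_pos w
  set G := (range (primorial w)).filter (fun b => ∀ j, (b + a j).Coprime (primorial w)) with hG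
  have h2 : G ⊆ (univ : Finset (Fin K)).biUnion (fun j => (range (primorial w)).filter
      (fun b => ((b + a j : ℕ) : ZMod (primorial w)) ∈ B)) := by
    intro b hb
    rw [hG, mem_filter, mem_range] at hb
    obtain ⟨j, hj⟩ := hno b hb.1
    rw [mem_biUnion]
    exact ⟨j, mem_univ _, mem_filter.2 ⟨mem_range.2 hb.1, hj (hb.2 j)⟩⟩
  have h3 : ∀ j : Fin K, ((range (primorial w)).filter (fun b => ((b + a j : ℕ) : ZMod (primorial w)) ∈ B)).card ≤ B.card := by
    intro j
    refine card_le_card_of_injOn (fun b => ((b + a j : ℕ) : ZMod (primorial w))) (fun b hb => ?_) ?_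
    · rw [mem_coe, mem_filter] at hb
      exact hb.2
    · intro b hb c hc hbc
      rw [mem_coe, mem_filter, mem_range] at hb hc
      have h4 : ((b + a j : ℕ) : ZMod (primorial w)) = ((c + a j : ℕ) : ZMod (primorial w)) := hbc
      push_cast at h4
      have h5 : (b : ZMod (primorial w)) = (c : ZMod (primorial w)) := add_right_cancel h4
      rw [ZMod.natCast_eq_natCast_iff] at h5
      have h6 : b % primorial w = c % primorial w := h5
      rwa [Nat.mod_eq_of_lt hb.1, Nat.mod_eq_of_lt hc.1] at h6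
  have h4 : G.card ≤ K * B.card := by
    refine (card_le_card h2).trans (card_biUnion_le.trans ((sum_le_sum fun j _ => h3 j).trans ?_))
    simp
  have h5 : (G.card : ℝ) ≤ K * B.card := by exact_mod_cast h4
  have h6 : (0 : ℝ) ≤ (2 * K : ℝ) ^ (2 * K) * (w : ℝ) ^ (2 * K) := by positivity
  have h7 := mul_le_mul_of_nonneg_left h5 h6
  have h8 : (2 * K : ℝ) ^ (2 * K) * (w : ℝ) ^ (2 * K) * ((K : ℝ) * B.card) =
      (K : ℝ) * B.card * ((2 * K : ℝ) ^ (2 * K) * (w : ℝ) ^ (2 * K)) := by ring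
  linarith

end Pool.Agent.J4H68.MV
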