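import Pool.Agent.J4H32.MV.S3

/-!
# Project MV (helper32): `S_PS` (helper68)
-/

set_option autoImplicit false

namespace Pool.Agent.J4H68.MV

open Finset

/-- primes in a dyadic interval -/
theorem dyadic (k : ℕ) (hk : 1 ≤ k) :
    ∑ p ∈ (Ioc (2 ^ k) (2 ^ (k + 1))).filter Nat.Prime, 1 / (p : ℝ) ≤ 4 / k := by
  set S := (Ioc (2 ^ k) (2 ^ (k + 1))).filter Nat.Prime with hS
  have h1 : (2 ^ k) ^ S.card ≤ 4 ^ (2 ^ (k + 1)) := by
    calc (2 ^ k) ^ S.card ≤ ∏ p ∈ S, p := by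
          rw [← prod_const]
          exact prod_le_prod' fun p hp => (mem_Ioc.1 (mem_filter.1 hp).1).1.le
      _ ≤ primorial (2 ^ (k + 1)) := by
          unfold primorial
          refine prod_le_prod_of_subset_of_one_le' ?_ fun p hp _ => (mem_filter.1 hp).2.one_lt.le
          intro p hp
          rw [hS, mem_filter, mem_Ioc] at hp
          rw [mem_filter, mem_range]
          exact ⟨by omega, hp.2⟩
      _ ≤ 4 ^ (2 ^ (k + 1)) := primorial_le_four_pow _
  have h2 : k * S.card ≤ 2 * 2 ^ (k + 1) := by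
    rw [← pow_mul, show (4 : ℕ) = 2 ^ 2 by norm_num, ← pow_mul] at h1
    exact (Nat.pow_le_pow_iff_right (by norm_num)).1 h1
  have h3 : ∑ p ∈ S, 1 / (p : ℝ) ≤ S.card * (1 / (2 : ℝ) ^ k) := by
    rw [← nsmul_eq_mul]
    refine sum_le_card_nsmul _ _ _ fun p hp => ?_
    have h4 : (2 : ℝ) ^ k ≤ p := by
      exact_mod_cast (mem_Ioc.1 (mem_filter.1 hp).1).1.le
    exact one_div_le_one_div_of_le (by positivity) h4
  refine h3.trans ?_
  have hk' : (0 : ℝ) < k := by exact_mod_cast hk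
  rw [le_div_iff₀ hk']
  have h5 : (k : ℝ) * S.card ≤ 2 * 2 ^ (k + 1) := by exact_mod_cast h2
  have h6 : (S.card : ℝ) * (1 / 2 ^ k) * k = (k * S.card) / 2 ^ k := by ring
  rw [h6, div_le_iff₀ (by positivity)]
  calc (k : ℝ) * S.card ≤ 2 * 2 ^ (k + 1) := h5
    _ = 4 * 2 ^ k := by ring

theorem sum_dyadic (n : ℕ) :
    ∑ p ∈ (range (2 ^ (n + 1) + 1)).filter Nat.Prime, 1 / (p : ℝ) ≤ 1 / 2 + 4 * ∑ k ∈ range n, 1 / ((k : ℝ) + 1) := by
  induction n with
  | zero =>
    have : (range (2 ^ (0 + 1) + 1)).filter Nat.Prime = {2} := by decide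
    rw [this]
    simp
  | succ n ih =>
    have h1 : (range (2 ^ (n + 1 + 1) + 1)).filter Nat.Prime ⊆
        (range (2 ^ (n + 1) + 1)).filter Nat.Prime ∪
          (Ioc (2 ^ (n + 1)) (2 ^ (n + 1 + 1))).filter Nat.Prime := by
      intro p hp
      rw [mem_filter, mem_range] at hp
      rw [mem_union, mem_filter, mem_filter, mem_range, mem_Ioc]
      by_cases h : p < 2 ^ (n + 1) + 1
      · exact Or.inl ⟨h, hp.2⟩
      · exact Or.inr ⟨⟨by omega, by omega⟩, hp.2⟩
    have h2 := dyadic (n + 1) (by omega)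
    have h3 : ∑ p ∈ (range (2 ^ (n + 1 + 1) + 1)).filter Nat.Prime, 1 / (p : ℝ) ≤
        ∑ p ∈ (range (2 ^ (n + 1) + 1)).filter Nat.Prime, 1 / (p : ℝ) +
          ∑ p ∈ (Ioc (2 ^ (n + 1)) (2 ^ (n + 1 + 1))).filter Nat.Prime, 1 / (p : ℝ) := by
      refine (sum_le_sum_of_subset_of_nonneg h1 fun p _ _ => by positivity).trans ?_
      rw [← sum_union_inter]
      exact le_add_of_nonneg_right (sum_nonneg fun p _ => by positivity)
    rw [sum_range_succ]
    have h4 : (4 : ℝ) / ((n + 1 : ℕ) : ℝ) = 4 * (1 / ((n : ℝ) + 1)) := by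
      push_cast
      ring
    rw [h4] at h2
    linarith

theorem harm (n : ℕ) : ∑ k ∈ range n, 1 / ((k : ℝ) + 1) ≤ 1 + Real.log n := by
  have h := harmonic_le_one_add_log n
  have e : ((harmonic n : ℚ) : ℝ) = ∑ k ∈ range n, 1 / ((k : ℝ) + 1) := by
    rw [harmonic]
    push_cast
    exact sum_congr rfl fun k _ => by rw [one_div]
  rwa [e] at h

theorem t_PS0 : ∃ C : ℝ, 0 < C ∧ ∀ l : ℝ, 3 ≤ l → ∀ Q : ℕ, (Q : ℝ) ≤ Real.exp l →
  ∑ p ∈ (range (Q + 1)).filter Nat.Prime, 1 / (p : ℝ) ≤ C * Real.log l := by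
  refine ⟨13, by norm_num, fun l hl Q hQ => ?_⟩
  set n := ⌈2 * l⌉₊ with hn
  have h1 : (2 * l : ℝ) ≤ n := Nat.le_ceil _
  have h1' : (n : ℝ) < 2 * l + 1 := Nat.ceil_lt_add_one (by linarith)
  have hlog2 : (1 : ℝ) / 2 ≤ Real.log 2 := by
    have := Real.log_two_gt_d9
    linarith
  have hQn : Q ≤ 2 ^ (n + 1) := by
    have h2 : (Q : ℝ) ≤ 2 ^ n := by
      refine hQ.trans ?_
      rw [← Real.exp_log (show (0 : ℝ) < 2 ^ n by positivity), Real.log_pow]
      refine Real.exp_le_exp.2 ?_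
      calc l = 2 * l * (1 / 2) := by ring
        _ ≤ n * Real.log 2 := by
          apply mul_le_mul h1 hlog2 (by norm_num) (by linarith)
    have h3 : Q ≤ 2 ^ n := by exact_mod_cast h2
    exact h3.trans (Nat.pow_le_pow_right (by norm_num) (by omega))
  have h4 : ∑ p ∈ (range (Q + 1)).filter Nat.Prime, 1 / (p : ℝ) ≤
      ∑ p ∈ (range (2 ^ (n + 1) + 1)).filter Nat.Prime, 1 / (p : ℝ) := by
    refine sum_le_sum_of_subset_of_nonneg ?_ fun p _ _ => by positivity
    exact filter_subset_filter _ (range_subset_range.2 (by omega))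
  have h5 := sum_dyadic n
  have h6 := harm n
  have hlog3 : 1 ≤ Real.log l := by
    have h7 : Real.log 3 ≤ Real.log l := Real.log_le_log (by norm_num) hl
    have h8 : (1 : ℝ) ≤ Real.log 3 := by
      rw [Real.le_log_iff_exp_le (by norm_num)]
      have := Real.exp_one_lt_d9
      linarith
    linarith
  have h9 : Real.log n ≤ 2 * Real.log l := by
    have h10 : (n : ℝ) ≤ l ^ 2 := by nlinarith
    have hnpos : (0 : ℝ) < n := by linarith
    calc Real.log n ≤ Real.log (l ^ 2) := Real.log_le_log hnpos h10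
      _ = 2 * Real.log l := by rw [Real.log_pow]; norm_num
  linarith

theorem t_PS : Pool.Agent.J4H32.MV.S_PS := t_PS0

end Pool.Agent.J4H68.MV
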