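import Pool.Agent.J4H32.MV.S3

/-!
# Project MV (helper32): `S_RK` (helper68)
-/

set_option autoImplicit false

namespace Pool.Agent.J4H68.MV

open Finset

open Pool.Agent.J4H32.MV (Sg)

theorem exp_le_two {x : ℝ} (h0 : 0 ≤ x) (h1 : x ≤ 1) : Real.exp x ≤ 1 + 2 * x := by
  have h := Real.abs_exp_sub_one_sub_id_le (x := x) (by rw [abs_of_nonneg h0]; exact h1)
  have h2 := (abs_le.1 h).2
  nlinarith

theorem sum_multiples (X d : ℕ) (_ : 0 < d) : (((Icc 1 X).filter (fun h => d ∣ h)).card : ℝ) ≤ X / d := by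
  have h1 : ((Icc 1 X).filter (fun h => d ∣ h)).card = X / d := by
    have : (Icc 1 X).filter (fun h => d ∣ h) = (Ioc 0 X).filter (fun h => d ∣ h) := by
      congr 1
    rw [this, Nat.Ioc_filter_dvd_card_eq_div]
  rw [h1]
  exact Nat.cast_div_le

theorem rankin_sum (w X : ℕ) (hw : 1 ≤ w) :
    ∑ h ∈ Icc 1 X, Real.exp (w * Sg w (h : ℤ)) ≤ 8 * X := by
  classical
  set P := (Ioc w X).filter Nat.Prime with hP
  have hw' : (0 : ℝ) < w := by exact_mod_cast hw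
  have hPw : ∀ p ∈ P, (w : ℝ) < p := fun p hp => by
    exact_mod_cast (mem_Ioc.1 (mem_filter.1 hp).1).1
  have hPp : ∀ p ∈ P, p.Prime := fun p hp => (mem_filter.1 hp).2
  -- pointwise
  have h1 : ∀ h ∈ Icc 1 X, Real.exp (w * Sg w (h : ℤ)) ≤
      ∑ T ∈ P.powerset, if (∏ p ∈ T, p) ∣ h then ∏ p ∈ T, (2 * w / (p : ℝ)) else 0 := by
    intro h hh
    rw [mem_Icc] at hh
    have e1 : (h : ℤ).natAbs.primeFactors.filter (fun p => w < p) = P.filter (fun p => p ∣ h) := by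
      ext p
      rw [mem_filter, mem_filter, hP, mem_filter, mem_Ioc, Int.natAbs_natCast, Nat.mem_primeFactors]
      constructor
      · rintro ⟨⟨h1, h2, h3⟩, h4⟩
        exact ⟨⟨⟨h4, (Nat.le_of_dvd (by omega) h2).trans hh.2⟩, h1⟩, h2⟩
      · rintro ⟨⟨⟨h1, h2⟩, h3⟩, h4⟩
        exact ⟨⟨h3, h4, by omega⟩, h1⟩
    rw [Sg, e1, mul_sum, Real.exp_sum]
    have h2 : ∏ p ∈ P.filter (fun p => p ∣ h), Real.exp (w * (1 / (p : ℝ))) ≤
        ∏ p ∈ P.filter (fun p => p ∣ h), (1 + 2 * w / (p : ℝ)) := by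
      refine prod_le_prod (fun p _ => (Real.exp_pos _).le) fun p hp => ?_
      have h3 := hPw p (mem_filter.1 hp).1
      have h4 : (0 : ℝ) ≤ w * (1 / (p : ℝ)) := by positivity
      have h5 : w * (1 / (p : ℝ)) ≤ 1 := by
        rw [mul_one_div, div_le_one (by linarith)]
        exact h3.le
      refine (exp_le_two h4 h5).trans (le_of_eq (by ring))
    refine h2.trans ?_
    rw [prod_one_add]
    rw [← sum_filter]
    refine sum_le_sum_of_subset_of_nonneg ?_ fun T _ _ => prod_nonneg fun p _ => by positivity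
    intro T hT
    rw [mem_powerset] at hT
    rw [mem_filter, mem_powerset]
    refine ⟨hT.trans (filter_subset _ _), ?_⟩
    refine Finset.prod_primes_dvd h (fun p hp => ?_) fun p hp => ?_
    · exact (hPp p (mem_filter.1 (hT hp)).1).prime
    · exact (mem_filter.1 (hT hp)).2
  refine (sum_le_sum h1).trans ?_
  rw [sum_comm]
  have h2 : ∀ T ∈ P.powerset, ∑ h ∈ Icc 1 X, (if (∏ p ∈ T, p) ∣ h then ∏ p ∈ T, (2 * w / (p : ℝ)) else 0) ≤
      X * ∏ p ∈ T, (2 * w / (p : ℝ) ^ 2) := by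
    intro T hT
    rw [mem_powerset] at hT
    rw [← sum_filter, sum_const, nsmul_eq_mul]
    have hpos : 0 < ∏ p ∈ T, p := prod_pos fun p hp => (hPp p (hT hp)).pos
    have h3 := sum_multiples X _ hpos
    have h4 : (0 : ℝ) ≤ ∏ p ∈ T, (2 * w / (p : ℝ)) := prod_nonneg fun p _ => by positivity
    refine (mul_le_mul_of_nonneg_right h3 h4).trans (le_of_eq ?_)
    push_cast
    rw [div_mul_eq_mul_div, mul_div_assoc, ← prod_div_distrib]
    congr 1
    refine prod_congr rfl fun p hp => ?_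
    rw [div_div, sq]
  refine (sum_le_sum h2).trans ?_
  rw [← mul_sum, ← prod_one_add]
  have h3 : ∏ p ∈ P, (1 + 2 * w / (p : ℝ) ^ 2) ≤ Real.exp (∑ p ∈ P, 2 * w / (p : ℝ) ^ 2) := by
    rw [Real.exp_sum]
    refine prod_le_prod (fun p _ => by positivity) fun p _ => ?_
    have := Real.add_one_le_exp (2 * w / (p : ℝ) ^ 2)
    linarith
  have h4 : ∑ p ∈ P, 2 * w / (p : ℝ) ^ 2 ≤ 2 := by
    have h5 : ∑ p ∈ P, 2 * w / (p : ℝ) ^ 2 ≤ ∑ n ∈ Ioc w (max w X), 2 * w / (n : ℝ) ^ 2 := by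
      refine sum_le_sum_of_subset_of_nonneg ?_ fun p _ _ => by positivity
      intro p hp
      rw [hP, mem_filter, mem_Ioc] at hp
      rw [mem_Ioc]
      exact ⟨hp.1.1, hp.1.2.trans (le_max_right _ _)⟩
    refine h5.trans ?_
    have h6 : ∑ n ∈ Ioc w (max w X), 2 * w / (n : ℝ) ^ 2 =
        2 * w * ∑ n ∈ Ioc w (max w X), ((n : ℝ) ^ 2)⁻¹ := by
      rw [mul_sum]
      rfl
    rw [h6]
    have h7 : ∑ n ∈ Ioc w (max w X), ((n : ℝ) ^ 2)⁻¹ ≤ (w : ℝ)⁻¹ - ((max w X : ℕ) : ℝ)⁻¹ :=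
      sum_Ioc_inv_sq_le_sub (by omega) (le_max_left _ _)
    have h8 : (0 : ℝ) ≤ ((max w X : ℕ) : ℝ)⁻¹ := by positivity
    calc 2 * w * ∑ n ∈ Ioc w (max w X), ((n : ℝ) ^ 2)⁻¹ ≤ 2 * w * (w : ℝ)⁻¹ := by
          apply mul_le_mul_of_nonneg_left _ (by positivity)
          linarith
      _ = 2 := by field_simp
  have h5 : Real.exp 2 ≤ 8 := by
    have h6 := Real.exp_one_lt_d9
    have h7 : Real.exp 2 = Real.exp 1 * Real.exp 1 := by rw [← Real.exp_add]; norm_num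
    rw [h7]
    have := Real.exp_pos 1
    nlinarith
  have h6 := h3.trans ((Real.exp_le_exp.2 h4).trans h5)
  calc (X : ℝ) * ∏ p ∈ P, (1 + 2 * w / (p : ℝ) ^ 2) ≤ X * 8 := by gcongr
    _ = 8 * X := by ring

theorem t_RK0 (w X : ℕ) (ε : ℝ) (hw : 1 ≤ w) :
    (((Icc 1 X).filter (fun h : ℕ => ε < Sg w (h : ℤ))).card : ℝ) ≤ 8 * X * Real.exp (-(ε * w)) := by
  have h1 := rankin_sum w X hw
  have h2 : (((Icc 1 X).filter (fun h : ℕ => ε < Sg w (h : ℤ))).card : ℝ) * Real.exp (ε * w) ≤ 8 * X := by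
    refine le_trans ?_ h1
    rw [← nsmul_eq_mul]
    refine le_trans ?_ (sum_le_sum_of_subset_of_nonneg
      (filter_subset (fun h : ℕ => ε < Sg w (h : ℤ)) _) fun h _ _ => (Real.exp_pos _).le)
    refine card_nsmul_le_sum _ _ _ fun h hh => ?_
    have h3 := (mem_filter.1 hh).2
    refine Real.exp_le_exp.2 ?_
    rw [mul_comm]
    exact mul_le_mul_of_nonneg_left h3.le (by positivity)
  rw [Real.exp_neg, ← div_eq_mul_inv, le_div_iff₀ (Real.exp_pos _)]
  exact h2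

theorem t_RK : Pool.Agent.J4H32.MV.S_RK := t_RK0

end Pool.Agent.J4H68.MV
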